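import Mathlib
import Pool.Agent.H635.NV.Def

/-!
# MP_3554b5_lc: parameter-free intersections of valuation rings in NIP fields

If a formula with parameters defines a nontrivial valuation ring of an NIP field `K`, then the
intersection of *all* the nontrivial valuation rings defined by that formula (with arbitrary
parameters) is the intersection of finitely many pairwise incomparable nontrivial valuation rings of
`K`. It is defined by a formula without parameters, and the finitely many rings are definable.

Sketch. By Nagata's lemma (finitely many valuation rings are simultaneously well-behaved) a set of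
`n` pairwise incomparable nontrivial valuation rings is shattered by the elements of the field, so
NIP bounds the size of the antichains of the family. Each maximal chain of the family has as its
intersection a valuation ring, these are pairwise incomparable, and there are only finitely many of
them. From the intersection of the finitely many rings each of them is recovered as a localization.
-/

set_option autoImplicit false

namespace Pool.Agent.Results.MP_3554b5_lc.ParameterFreeIntersection

open FirstOrder FirstOrder.Language

/-- No formula of the language of rings has the independence property in `K`; this is the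
hypothesis of the frozen statement. -/
def IsNIP (K : Type) [Field K] [FirstOrder.Ring.CompatibleRing K] : Prop :=
  ∀ (m k : ℕ) (φ : FirstOrder.Language.ring.Formula (Fin m ⊕ Fin k)),
    ∃ n : ℕ, ∀ (a : Fin n → Fin m → K) (b : Finset (Fin n) → Fin k → K),
      ∃ (i : Fin n) (J : Finset (Fin n)),
        ¬ (φ.Realize (Sum.elim (a i) (b J)) ↔ i ∈ J)

/-- The valuation ring `V` is defined by the formula `φ(x; c)` with parameters `c`. -/
def DefinedBy {K : Type} [Field K] [FirstOrder.Ring.CompatibleRing K] {p : ℕ}
    (φ : FirstOrder.Language.ring.Formula (Fin 1 ⊕ Fin p)) (c : Fin p → K)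
    (V : ValuationSubring K) : Prop :=
  ∀ x : K, x ∈ V ↔ φ.Realize (Sum.elim (fun _ => x) c)

/-- For every formula `φ(x; y)` there are a formula `θ(x)` without parameters and a formula
`ψ(x; z₁, z₂)` such that in every NIP field `K` in which some `φ(x; c)` defines a nontrivial
valuation ring, there is a finite nonempty set `W` of pairwise incomparable nontrivial valuation
rings, such that every nontrivial valuation ring defined by some `φ(x; c)` contains a member of
`W`, each member of `W` is defined by some `ψ(x; d)`, and `θ` defines the intersection of the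
members of `W`. -/
theorem result (p : ℕ) (φ : FirstOrder.Language.ring.Formula (Fin 1 ⊕ Fin p)) :
    ∃ (θ : FirstOrder.Language.ring.Formula (Fin 1))
      (ψ : FirstOrder.Language.ring.Formula (Fin 1 ⊕ Fin 2)),
      ∀ (K : Type) [Field K] [FirstOrder.Ring.CompatibleRing K], IsNIP K →
        (∃ (c : Fin p → K) (V : ValuationSubring K), V ≠ ⊤ ∧ DefinedBy φ c V) →
        ∃ W : Finset (ValuationSubring K), W.Nonempty ∧ (∀ A ∈ W, A ≠ ⊤) ∧
          (∀ A ∈ W, ∀ B ∈ W, A ≤ B → A = B) ∧
          (∀ (c : Fin p → K) (V : ValuationSubring K), V ≠ ⊤ → DefinedBy φ c V →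
            ∃ A ∈ W, A ≤ V) ∧
          (∀ A ∈ W, ∃ d : Fin 2 → K, DefinedBy ψ d A) ∧
          ∀ x : K, θ.Realize (fun _ => x) ↔ ∀ A ∈ W, x ∈ A := by
  classical
  refine ⟨H635.NV.interF φ, H635.NV.locF (H635.NV.interF φ), fun K _ _ hK hO => ?_⟩
  obtain ⟨c₀, O, hO, hOφ⟩ := hO
  let F : Set (ValuationSubring K) := {V | V ≠ ⊤ ∧ ∃ b, H635.NV.DefBy φ b V}
  -- the bound for antichains
  obtain ⟨N, hN⟩ := hK p 1 (φ.relabel Sum.swap)
  have hNF : ∀ V : Fin N → ValuationSubring K, (∀ i, V i ∈ F) → ¬ ∀ i j, i ≠ j → ¬ V i ≤ V j := by
    intro V hV hanti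
    choose hT b hb using hV
    choose x hx using H635.NV.shatter V hanti hT
    obtain ⟨i, J, h⟩ := hN b (fun J _ => x J)
    apply h
    rw [Formula.realize_relabel]
    have h1 : (Sum.elim (b i) (fun _ => x J) ∘ Sum.swap : Fin 1 ⊕ Fin p → K) =
        Sum.elim (fun _ => x J) (b i) := by
      funext a
      rcases a with a | a <;> rfl
    rw [h1, ← hb i (x J), hx J i]
  obtain ⟨W, h1, h2, h3, -⟩ := H635.NV.finite_minimal F N hNF
  have hWT : ∀ A ∈ W, A ≠ ⊤ := by
    intro A hA hAT
    obtain ⟨C, hC, ⟨V, hV⟩, hAC⟩ := h1 A hA
    apply (hC hV).1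
    rw [eq_top_iff, ← hAT]
    exact fun x hx => (hAC x).1 hx V hV
  have hint : ∀ x : K, (H635.NV.interF φ).Realize (fun _ => x) ↔ ∀ A ∈ W, x ∈ A := by
    intro x
    rw [H635.NV.realize_interF]
    constructor
    · intro h A hA
      obtain ⟨C, hC, -, hAC⟩ := h1 A hA
      exact (hAC x).2 fun V hV => h V (hC hV).1 (hC hV).2
    · intro h V hV hVb
      obtain ⟨A, hA, hAV⟩ := h3 V ⟨hV, hVb⟩
      exact hAV (h A hA)
  refine ⟨W, ?_, hWT, h2, fun c V hV hVc => h3 V ⟨hV, c, hVc⟩, fun A hA => ?_, hint⟩
  · obtain ⟨A, hA, -⟩ := h3 O ⟨hO, c₀, hOφ⟩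
    exact ⟨A, hA⟩
  · -- definability of the members
    let e : Fin W.card ≃ W := W.equivFin.symm
    let V : Fin W.card → ValuationSubring K := fun i => (e i : ValuationSubring K)
    have hV : ∀ i j, i ≠ j → ¬ V i ≤ V j := by
      intro i j hij hle
      exact hij (e.injective (Subtype.ext (h2 _ (e i).2 _ (e j).2 hle)))
    choose z hz hz' using H635.NV.exists_idem V hV
    obtain ⟨i, hi⟩ := e.surjective ⟨A, hA⟩
    have hVi : V i = A := by
      change (e i : ValuationSubring K) = A
      rw [hi]
    have hall : ∀ y : K, (∀ A ∈ W, y ∈ A) ↔ ∀ j, y ∈ V j := by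
      intro y
      constructor
      · intro h j
        exact h _ (e j).2
      · intro h B hB
        obtain ⟨j, hj⟩ := e.surjective ⟨B, hB⟩
        have := h j
        change y ∈ (e j : ValuationSubring K) at this
        rwa [hj] at this
    refine ⟨![z i, ∑ j ∈ Finset.univ.erase i, z j], fun x => ?_⟩
    rw [H635.NV.realize_locF, ← hVi, H635.NV.mem_iff_loc V z hz hz' i x]
    simp only [hint, hall]

end Pool.Agent.Results.MP_3554b5_lc.ParameterFreeIntersection
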