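import Mathlib
import Pool.Agent.H403.Z.Nip4
import Pool.Agent.H403.Z.Conv
import Pool.Agent.H403.Z.Cyc3
import Pool.Graph.R_pool_sql_team_seeded_c8625f6e.K4H89.J.Fin

set_option autoImplicit false

/-! # MP_3554b5_lc: pro-`p` subgroups of the absolute Galois groups of NIP fields

Let `K` be an NIP field of characteristic `ℓ > 0` (a pure field, in the language of rings), `K'` a
field elementarily equivalent to `K` (for example `K' = K`) and `H` a closed pro-`p` subgroup of the
absolute Galois group of `K'`, `p ≠ ℓ`.  Suppose that `H` has a closed subnormal subgroup which is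
topologically finitely generated, not trivial and of infinite index.  Then `K` and `K'` have a
nontrivial henselian valuation ring which is definable with parameters: the conclusion of Shelah's
conjecture.  So in a counterexample of positive characteristic all finitely generated subnormal
subgroups of all closed pro-`p` subgroups are trivial or open, as in a free pro-`p` group.  For
example the closed solvable pro-`p` subgroups are procyclic.

The same holds if an algebraic extension `M` of `K'`, of finite or infinite degree, contains the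
`p`-th roots of unity and satisfies one of the following: the Galois group `G_M(p)` of the maximal
`p`-extension has such a subgroup; `M` has more than one Galois extension of degree `p` and a
valuation ring `O` with `p ∈ O*`, `1 + m ⊆ M*^p`, `O* M*^p ≠ M*`; or `M*/M*^p` has order at least
`p²`, `-1 ∈ M*^p`, and for some cyclic extension `E/M` of degree `p^m > 1` all norms from `E` to `M`
are `p`-th powers in `E`, or `|E*/E*^p| < p^([E : M] - 1) |M*/M*^p| < ∞`.

In all characteristics, and also for `NIP_n` and for NTP2 fields, one gets a nontrivial definable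
valuation ring of `K`.

Outline.  Let `M` be the fixed field of `H`.  It contains the `p`-th roots of unity and `H` is the
Galois group of its maximal `p`-extension.  By the theorem on finitely generated subnormal subgroups
(`SubnormalSubgroups` of MP_600e55_nt; the last condition is `CyclicGrowth` there) `M` has a
valuation ring `O` with `p ∈ O*`, `1 + m ⊆ M*^p` and value group not `p`-divisible.  If `M*/M*^p` had
order `p`, then `H` would be procyclic and its nontrivial closed subgroups would have finite index.
Now `O` is restricted to `K'`.  The value group of `M` is a torsion group modulo the value group of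
`K'`, and the residue field extension is algebraic.  So the value group of `K'` is not `p`-divisible.
Suppose that it is cyclic modulo `p` and that the residue field of `K'` has no finite separable
extension of degree divisible by `p`.  Then the value group of `M` is cyclic modulo `p` too (compare
the indices of `p`-multiples in commensurable subgroups), and the residue field of `M` is closed
under `p`-th roots, so the units of `O` are `p`-th powers and `M*/M*^p` has order `p`.  Hence `O ∩ K'` is
branching at `p` in the sense of the library result `DefinableCoarsenings`, which gives the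
definable valuation ring, and by `BranchingCharP` (which contains the theorem of Johnson that
definable valuation rings on NIP fields of positive characteristic are henselian) it is henselian in
positive characteristic. -/

namespace Pool.Agent.Results.MP_3554b5_lc.SubnormalSubgroups

open Pool.Agent.W882.Nip3

/-- `O` is definable with parameters in the language of rings -/
def IsDefinable {K : Type} [Field K] [FirstOrder.Ring.CompatibleRing K] (O : ValuationSubring K) :
    Prop :=
  ∃ (k : ℕ) (ψ : FirstOrder.Language.ring.Formula (Fin 1 ⊕ Fin k)) (c : Fin k → K),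
    ∀ x : K, x ∈ O ↔ ψ.Realize (Sum.elim (fun _ => x) c)

/-- `K` has a nontrivial henselian valuation ring which is definable with parameters (the
conclusion of Shelah's conjecture for infinite fields which are neither separably closed nor real
closed) -/
def HasDefinableHenselian (K : Type) [Field K] [FirstOrder.Ring.CompatibleRing K] : Prop :=
  ∃ O : ValuationSubring K, O ≠ ⊤ ∧ HenselianLocalRing O ∧ IsDefinable O

/-- `K` has a nontrivial valuation ring which is definable with parameters -/
def HasDefinableValuation (K : Type) [Field K] [FirstOrder.Ring.CompatibleRing K] : Prop :=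
  ∃ O : ValuationSubring K, O ≠ ⊤ ∧ IsDefinable O

/-- `H` is topologically finitely generated -/
def IsTopologicallyFG {G : Type} [Group G] [TopologicalSpace G] [IsTopologicalGroup G]
    (H : Subgroup G) : Prop :=
  ∃ S : Set G, S.Finite ∧ (Subgroup.closure S).topologicalClosure = H

/-- `G` has a closed subnormal subgroup which is topologically finitely generated, not trivial and
of infinite index (index `0` in Mathlib) -/
def HasSubnormalSubgroup (G : Type) [Group G] [TopologicalSpace G] [IsTopologicalGroup G] : Prop :=
  ∃ N : Subgroup G, N.IsSubnormal ∧ IsClosed (N : Set G) ∧ IsTopologicallyFG N ∧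
    N ≠ ⊥ ∧ N.index = 0

/-- all open subgroups of `G` have index a power of `p` -/
def IsProP (p : ℕ) (G : Type) [Group G] [TopologicalSpace G] : Prop :=
  ∀ U : Subgroup G, IsOpen (U : Set G) → ∃ k : ℕ, U.index = p ^ k

/-- the absolute Galois group of `K` has a closed pro-`p` subgroup `H` with a subgroup as above -/
def GroupCondition (p : ℕ) (K : Type) [Field K] : Prop :=
  (p : K) ≠ 0 ∧ ∃ H : Subgroup (SeparableClosure K ≃ₐ[K] SeparableClosure K),
    IsClosed (H : Set (SeparableClosure K ≃ₐ[K] SeparableClosure K)) ∧ IsProP p H ∧
      HasSubnormalSubgroup H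

/-- the group of `p`-th powers of `M*` -/
def powers (M : Type) [Field M] (p : ℕ) : Subgroup Mˣ := (powMonoidHom p : Mˣ →* Mˣ).range

/-- `K` is the compositum of the finite Galois extensions of `M` of `p`-power degree -/
def IsMaximalPExtension (p : ℕ) {M : Type} [Field M]
    (K : IntermediateField M (AlgebraicClosure M)) : Prop :=
  K = sSup {L : IntermediateField M (AlgebraicClosure M) |
    FiniteDimensional M L ∧ IsGalois M L ∧ ∃ k : ℕ, Module.finrank M L = p ^ k}

/-- `E` is a cyclic Galois extension of `M` of degree `p^m`, `m ≥ 1` -/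
structure IsCyclicPExtension (p : ℕ) (M E : Type) [Field M] [Field E] [Algebra M E] : Prop where
  fin : FiniteDimensional M E
  gal : IsGalois M E
  cyc : IsCyclic (E ≃ₐ[M] E)
  deg : ∃ k : ℕ, Module.finrank M E = p ^ (k + 1)

/-- all norms from `E` to `M` are `p`-th powers in `E` -/
def NormsArePowers (p : ℕ) (M E : Type) [Field M] [Field E] [Algebra M E] : Prop :=
  ∀ u : E, ∃ y : E, algebraMap M E (Algebra.norm M u) = y ^ p

/-- `p` is a unit of `O`, `1 + m ⊆ M*^p`, and `O* M*^p ≠ M*` -/
structure IsCompatible {M : Type} [Field M] (p : ℕ) (O : ValuationSubring M) : Prop where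
  inv_mem : (p : M)⁻¹ ∈ O
  one_add : ∀ x : M, x ∈ O → x⁻¹ ∉ O → ∃ y : M, y ^ p = 1 + x
  ne_top : O.unitGroup ⊔ powers M p ≠ ⊤

/-- `M` contains the `p`-th roots of unity, and (a) the group of the maximal `p`-extension has a
subgroup as above, or (b) `M` has a compatible valuation ring and more than one extension of
degree `p`, or (c) `-1 ∈ M*^p`, `M*/M*^p` has at least `p²` elements, and for some cyclic extension
`E` of `M` of degree `p^m`, `m ≥ 1`, all norms from `E` to `M` are `p`-th powers in `E`, or `M*/M*^p`
is finite and `|E*/E*^p| < p^([E : M] - 1) |M*/M*^p|` -/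
def FieldCondition (p : ℕ) (M : Type) [Field M] : Prop :=
  (∃ ζ : M, IsPrimitiveRoot ζ p) ∧
    ((∃ K : IntermediateField M (AlgebraicClosure M), IsMaximalPExtension p K ∧
        HasSubnormalSubgroup (↥K ≃ₐ[M] ↥K)) ∨
      ((powers M p).index ≠ p ∧ ∃ O : ValuationSubring M, IsCompatible p O) ∨
      ((powers M p).index ≠ 1 ∧ (powers M p).index ≠ p ∧ (-1 : Mˣ) ∈ powers M p ∧
        ∃ (E : Type) (_ : Field E) (_ : Algebra M E), IsCyclicPExtension p M E ∧
          (NormsArePowers p M E ∨ (powers M p).index ≠ 0 ∧
            (powers E p).index < p ^ (Module.finrank M E - 1) * (powers M p).index)))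

theorem good_of_field {p : ℕ} (hp : p.Prime) {M : Type} [Field M] (h : FieldCondition p M) :
    (powers M p).index ≠ p ∧ ∃ O : ValuationSubring M, Pool.Agent.H403.Z.Gd p O := by
  have : Fact p.Prime := ⟨hp⟩
  obtain ⟨hζ, h⟩ := h
  have hpM : (p : M) ≠ 0 := by
    obtain ⟨ζ, hζ⟩ := hζ
    have : NeZero p := ⟨hp.ne_zero⟩
    exact hζ.neZero'.ne
  rcases h with ⟨K, hK, N, hs, hcl, hfg, hne, hN⟩ | ⟨h1, O, hO⟩ |
    ⟨h1, h2, hneg, E, _, _, ⟨hE1, hE2, hE3, k, hk⟩, hE⟩
  · have hM : Pool.Agent.H403.W.MaxP p M K := by
      obtain ⟨ζ, hζ⟩ := hζ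
      have hK' : K = Pool.Agent.H403.W.maxPExt p M := hK
      rw [hK']
      exact Pool.Agent.H403.W.maxPExt_maxP p M hp hζ
    exact ⟨fun h => Pool.Agent.H403.Z.index_of_procyclic hM hζ h N hcl hne hN,
      Pool.Agent.H403.Z.good_of_subnormal hM hζ N hs hcl hN hne hfg⟩
  · exact ⟨h1, O, ⟨hO.inv_mem, hpM, hO.one_add⟩, hO.ne_top⟩
  · refine ⟨h2, ?_⟩
    obtain ⟨σ, hσ⟩ := hE3.exists_generator
    have hk' : Module.finrank M E = p ^ k * p := by rw [hk, pow_succ]
    rcases hE with hE5 | ⟨h0, hlt⟩
    · refine Pool.Agent.H403.Z.good_of_cyc (r := k) hζ hneg ⟨h1, h2⟩ hσ hk' fun u => ?_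
      obtain ⟨y, hy⟩ := hE5 u
      have hN0 : algebraMap M E (Algebra.norm M (u : E)) ≠ 0 :=
        (_root_.map_ne_zero _).2 (Algebra.norm_ne_zero_iff.2 u.ne_zero)
      have hy0 : y ≠ 0 := by
        rintro rfl
        rw [zero_pow hp.ne_zero] at hy
        exact hN0 hy
      exact ⟨Units.mk0 y hy0, Units.ext hy⟩
    · rcases Pool.Agent.H403.Z.growth_cyc (r := k) hζ hneg ⟨h1, h2⟩ hσ hk' h0 with h8 | h8
      · exact h8
      · rw [hk'] at hlt
        exact absurd hlt (not_lt.2 h8)

theorem branching_of_field {p : ℕ} (hp : p.Prime) {K M : Type} [Field K] [Field M] [Algebra K M]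
    (halg : Algebra.IsAlgebraic K M) (h : FieldCondition p M) :
    ∃ O : ValuationSubring K, Pool.Agent.K4H89.NV.Branching O p := by
  obtain ⟨hidx, O, hO⟩ := good_of_field hp h
  exact ⟨_, Pool.Agent.H403.Z.branching_of_gd (K := K) hp hO hidx⟩

theorem branching_of_group {p : ℕ} (hp : p.Prime) {K : Type} [Field K] (h : GroupCondition p K) :
    ∃ O : ValuationSubring K, Pool.Agent.K4H89.NV.Branching O p := by
  have : Fact p.Prime := ⟨hp⟩
  obtain ⟨hpK, H, hcl, hpro, N, hs, hNcl, hfg, hne, hN⟩ := h
  have hpΩ : NeZero (p : SeparableClosure K) := ⟨by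
    intro h0
    apply hpK
    apply (algebraMap K (SeparableClosure K)).injective
    rw [map_natCast, map_zero]
    exact h0⟩
  exact Pool.Agent.H403.Z.branching_of_group (K := K) (Ω := SeparableClosure K)
    (fun x => IsSepClosed.exists_pow_nat_eq x p)
    (HasEnoughRootsOfUnity.exists_primitiveRoot (SeparableClosure K) p)
    H hcl hpro N hs hNcl hfg hne hN

theorem result (K : Type) [Field K] [FirstOrder.Ring.CompatibleRing K]
    (K' : Type) [Field K'] [FirstOrder.Ring.CompatibleRing K']
    (he : FirstOrder.Language.ring.ElementarilyEquivalent K K') (p : ℕ) (hp : p.Prime)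
    (h : GroupCondition p K' ∨
      ∃ (M : Type) (_ : Field M) (_ : Algebra K' M), Algebra.IsAlgebraic K' M ∧
        FieldCondition p M) :
    -- NIP fields of positive characteristic
    (NIPField K → (∃ ℓ : ℕ, ℓ.Prime ∧ CharP K ℓ) →
      HasDefinableHenselian K ∧ HasDefinableHenselian K') ∧
    -- all characteristics
    ((NIPField K ∨ (∃ n, NIPnField n K) ∨ NTP2Field K) →
      HasDefinableValuation K ∧ HasDefinableValuation K') := by
  obtain ⟨O, hO⟩ : ∃ O : ValuationSubring K', Pool.Agent.K4H89.NV.Branching O p := by
    rcases h with h | ⟨M, _, _, halg, h⟩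
    · exact branching_of_group hp h
    · exact branching_of_field hp halg h
  refine ⟨?_, ?_⟩
  · rintro hK ⟨ℓ, hℓ, hchar⟩
    have : Fact ℓ.Prime := ⟨hℓ⟩
    obtain ⟨⟨O', -, h1, h2, h3⟩, O'', h4, h5, h6⟩ :=
      Pool.Agent.K4H89.J.henselian_branching K hK ℓ K' he O p hp hO
    exact ⟨⟨O'', h4, h5, h6⟩, O', h1, h2, h3⟩
  · intro hK
    obtain ⟨O', -, h1, h2⟩ := Pool.Agent.K4H89.NV.coarse_branching K'
      ((Pool.Agent.K4H89.NV.fewPlaces_of K hK).congr he) O hp hO
    exact ⟨Pool.Agent.K4H89.NV.definable_transfer he ⟨O', h1, h2⟩, O', h1, h2⟩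

end Pool.Agent.Results.MP_3554b5_lc.SubnormalSubgroups
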