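import Mathlib
import Pool.Agent.Results.MP_3554b5_lc.SubnormalSubgroups
import Pool.Agent.Results.MP_600e55_nt.PowerGrowth

set_option autoImplicit false

/-! # MP_3554b5_lc: the growth of `M*/M*^p` for algebraic extensions of NIP fields

Let `K` be an NIP field of positive characteristic (a pure field, in the language of rings), `K'` a
field elementarily equivalent to `K` (for example `K' = K`), `p` a prime number and `M` an algebraic
extension of `K'`, of finite or infinite degree, which contains the `p`-th roots of unity and such
that `M*/M*^p` is finite, of dimension `d(M)`, where `d(M) > 7` if `p = 2` and `d(M) > 9` if `p` is odd.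
Suppose that there is one `m` such that for all extensions `L` of degree `p^m` of `M` in the maximal
`p`-extension of `M` one has

* `d(L) - 7 < (3/2)^m (d(M) - 7)` if `p = 2`, and `d(L) - 9 < ((p + 3)/4)^m (d(M) - 9)` if `p` is odd.

Then `K` and `K'` have a nontrivial henselian valuation ring which is definable with parameters: the
conclusion of Shelah's conjecture.  In all characteristics, and also for `NIP_n` and for NTP2
fields, one gets a nontrivial definable valuation ring of `K` and `K'`.

So in a counterexample of positive characteristic the closed pro-`p` subgroups of the absolute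
Galois group, `p` not the characteristic, with more than 7 (or 9), but finitely many generators have
open subgroups of all indices whose number of generators grows at least like a power of the index.

By the theorem `PowerGrowth` of MP_600e55_nt the field `M` has a valuation ring `O` with `p ∈ O*`,
`1 + m ⊆ M*^p` and `O* M*^p ≠ M*`.  Its restriction to `K'` is branching at `p`, by the theorem
`SubnormalSubgroups` of this folder. -/

namespace Pool.Agent.Results.MP_3554b5_lc.PowerGrowth

open Pool.Agent.W882.Nip3
open Pool.Agent.Results.MP_3554b5_lc.SubnormalSubgroups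
open Pool.Agent.Results.MP_600e55_nt.CyclicGrowth (IsFinitePExtension)
open Pool.Agent.Results.MP_600e55_nt.PowerGrowth (dimension)

/-- `d(M) > c`, and `a^m (d(L) - c) < b^m (d(M) - c)` for all fields `L` of degree `p^m` over `M` in the
maximal `p`-extension of `M`, where `d` is the dimension of the group of classes of `p`-th powers -/
def SlowGrowth (p a b c m : ℕ) (M : Type) [Field M] : Prop :=
  c < dimension p M ∧
    ∀ L : IntermediateField M (AlgebraicClosure M), IsFinitePExtension p L →
      Module.finrank M L = p ^ m →
        a ^ m * dimension p L + c * b ^ m < b ^ m * dimension p M + c * a ^ m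

theorem result (K : Type) [Field K] [FirstOrder.Ring.CompatibleRing K]
    (K' : Type) [Field K'] [FirstOrder.Ring.CompatibleRing K']
    (he : FirstOrder.Language.ring.ElementarilyEquivalent K K') (p : ℕ) (hp : p.Prime)
    (M : Type) [Field M] [Algebra K' M] (halg : Algebra.IsAlgebraic K' M)
    (hζ : ∃ ζ : M, IsPrimitiveRoot ζ p) (hfin : (powers M p).index ≠ 0)
    (h : ∃ m : ℕ, (p = 2 ∧ SlowGrowth 2 2 3 7 m M) ∨ (p ≠ 2 ∧ SlowGrowth p 4 (p + 3) 9 m M)) :
    -- NIP fields of positive characteristic
    (NIPField K → (∃ ℓ : ℕ, ℓ.Prime ∧ CharP K ℓ) →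
      HasDefinableHenselian K ∧ HasDefinableHenselian K') ∧
    -- all characteristics
    ((NIPField K ∨ (∃ n, NIPnField n K) ∨ NTP2Field K) →
      HasDefinableValuation K ∧ HasDefinableValuation K') := by
  have hfact : Fact p.Prime := ⟨hp⟩
  refine Pool.Agent.Results.MP_3554b5_lc.SubnormalSubgroups.result K K' he p hp
    (Or.inr ⟨M, _, _, halg, hζ, Or.inr (Or.inl ?_)⟩)
  obtain ⟨hp2, hodd⟩ := Pool.Agent.Results.MP_600e55_nt.PowerGrowth.result p M hζ hfin
  have key : (1 < dimension p M) ∧ Pool.Agent.Results.MP_600e55_nt.PowerGrowth.IsValued p M := by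
    obtain ⟨m, ⟨h2, hd, hs⟩ | ⟨h2, hd, hs⟩⟩ := h
    · subst h2
      refine ⟨by omega, (hp2 rfl hd).resolve_right fun hg => ?_⟩
      obtain ⟨L, hL, hL2, hL3⟩ := hg m
      exact absurd (hs L hL hL2) (not_lt.2 hL3)
    · refine ⟨by omega, (hodd h2 hd).resolve_right fun hg => ?_⟩
      obtain ⟨L, hL, hL2, hL3⟩ := hg m
      exact absurd (hs L hL hL2) (not_lt.2 hL3)
  obtain ⟨hd, ⟨O, hO⟩, -⟩ := key
  refine ⟨?_, O, hO.inv_mem, hO.one_add, hO.ne_top⟩
  intro h1
  have h2 : dimension p M = Nat.log p (powers M p).index := rfl
  rw [h1, Nat.log_eq_one_iff.2 ⟨by nlinarith [hp.two_le], hp.one_lt, le_rfl⟩] at h2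
  omega

end Pool.Agent.Results.MP_3554b5_lc.PowerGrowth
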